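import Pool.Agent.Helper78.Tok.Goals

/-!
# Token machines are simulated in linear space
-/

namespace Pool.Agent.Helper78.Tok

open Pool.Agent.Helper65.LinSpace Pool.Agent.Helper78.Mpc Pool.Agent.Helper28.Ram Finset
open Pool.Agent.Helper28.Ram.Mach (sgz)

namespace Mach

variable {m : Mach} {p : ℕ}

theorem cf_lt {m : Mach} (hm : m.Ok) (t : ℕ) :
    (m.conf t).1 < 2 ^ m.σ ∧ ∀ a, (m.conf t).2 a < 2 ^ m.a := by
  unfold conf
  induction t with
  | zero => exact ⟨hm.hq0, hm.hM0⟩
  | succ t ih =>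
    refine ⟨hm.hN _ _, fun a => ?_⟩
    show Function.update (cf m.A m.N m.W m.q0 m.M0 t).2 (m.A (cf m.A m.N m.W m.q0 m.M0 t).1)
      (m.W (cf m.A m.N m.W m.q0 m.M0 t).1 ((cf m.A m.N m.W m.q0 m.M0 t).2
        (m.A (cf m.A m.N m.W m.q0 m.M0 t).1))) a < 2 ^ m.a
    by_cases h : a = m.A (cf m.A m.N m.W m.q0 m.M0 t).1
    · subst h
      rw [Function.update_self]
      exact hm.hW _ _
    · rw [Function.update_of_ne h]
      exact ih.2 a

theorem rel_init [hp : Fact p.Prime] {J K : ℕ} (hf : m.Fit p J K) :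
    m.Rel J K (trc (7 * J) (m.initA K)) (m.st0 p (K * (m.G + 2))) := by
  have hp0 := hp.out.pos
  refine ⟨fun x hx => ?_, fun t _ => ?_⟩
  · have h1 : trc (7 * J) (m.initA K) x = m.initA K x := if_pos hx
    rw [h1]
    have h4 := hf.h4
    have h5 := hf.h5
    set l := K * (m.G + 2) with hl
    have e : m.initA K x = m.enc (m.st0 p l) x := by
      unfold initA enc st0 St.call
      rw [← hl]
      simp only [ifz_eq01]
      by_cases hx1 : x = 7 * l + 1
      · have a1 : x % 7 = 1 := by omega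
        have a2 : x / 7 = l := by omega
        rw [if_pos hx1, a1, a2]
        simp
      · rw [if_neg hx1]
        by_cases hx2 : x = 7 * l + 2
        · have a1 : x % 7 = 2 := by omega
          have a2 : x / 7 = l := by omega
          rw [if_pos hx2, a1, a2]
          simp
        · rw [if_neg hx2]
          by_cases c0 : x % 7 = 0
          · simp [c0]
          by_cases c1 : x % 7 = 1
          · have a2 : x / 7 ≠ l := by omega
            simp [c1, Function.update_of_ne a2]
          by_cases c2 : x % 7 = 2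
          · have a2 : x / 7 ≠ l := by omega
            simp [c2, Function.update_of_ne a2]
          by_cases c3 : x % 7 = 3
          · by_cases a2 : x / 7 = l
            · simp [c3, a2]
            · simp [c3, Function.update_of_ne a2]
          by_cases c4 : x % 7 = 4
          · simp [c4, dig]
          by_cases c5 : x % 7 = 5
          · simp [c5]
          · rw [if_neg c0, if_neg c1, if_neg c2, if_neg c3, if_neg c4, if_neg c5]
            simp
    refine ⟨e, ?_⟩
    unfold initA
    simp only [ifz_eq01]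
    split_ifs <;> omega
  · show (0 : ℕ) < 2 ^ m.σ
    positivity

theorem rel_proc (hREL : REL_stmt) [Fact p.Prime] (hm : m.Ok) {J K : ℕ} (hf : m.Fit p J K) :
    ∀ l ≤ K * (m.G + 2), ∀ (a : ℕ → ℕ) (s : St p), m.Rel J K a s →
      m.Rel J K (prc (7 * J) (m.cnt p) (m.baseA p) (m.opA p) l a) (m.proc l s) := by
  obtain ⟨h1, h2⟩ := hREL m p hm J K hf
  intro l
  induction l with
  | zero =>
    intro _ a s h
    exact h2 a s h
  | succ l ih =>
    intro hl a s h
    show m.Rel J K (iter (fun j s => prc (7 * J) (m.cnt p) (m.baseA p) (m.opA p) l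
      (trc (7 * J) (m.opA p l j s))) (m.cnt p l) a) (iter (fun j s => m.proc l (m.op l j s))
        (m.cnt p l) s)
    generalize m.cnt p l = n
    induction n with
    | zero => exact h
    | succ n ihn => exact ih (by omega) _ _ (h1 l (by omega) n _ _ ihn)

/-- The bits of the event in `tn`. -/
theorem dig_tn (hm : m.Ok) (k x : ℕ) {o : ℕ} (ho : o < m.σ) :
    dig 2 (m.tn k x) o = dig 2 (m.conf (k * (m.G * m.b))).1 o := by
  have hlt := (cf_lt hm (k * (m.G * m.b))).1
  unfold tn dig
  obtain ⟨d, hd⟩ : ∃ d, m.σ = o + (d + 1) := ⟨m.σ - o - 1, by omega⟩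
  rw [hd, pow_add, mul_assoc, Nat.add_mul_div_left _ _ (by positivity), pow_succ, mul_comm (2 ^ d) 2,
    mul_assoc 2, Nat.add_mul_mod_self_left]

theorem sim_eq (hREL : REL_stmt) (hFINAL : FINAL_stmt) [hp : Fact p.Prime] (hm : m.Ok) {J K : ℕ}
    (hf : m.Fit p J K) (hd : m.b * m.nv m.G < p - 1) :
    m.sim p J K = (m.conf (K * (m.G * m.b))).1 := by
  have hσ := hm.hσ
  have hb := hm.hb
  have hrel := rel_proc hREL hm hf (K * (m.G + 2)) le_rfl _ _ (rel_init hf)
  have hlt := (cf_lt hm (K * (m.G * m.b))).1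
  unfold sim
  rw [← tab_dig _ m.σ hlt]
  refine tab_congr fun o ho => ?_
  have hwc : o < m.wc := by
    unfold wc
    omega
  have hx : m.cl K + o < J := by
    have h1 := hf.h1
    unfold cl
    rcases Nat.mod_two_eq_zero_or_one K with h | h <;> rw [h] <;> omega
  obtain ⟨h1, _⟩ := hrel.1 (7 * (m.cl K + o)) (by omega)
  rw [h1]
  unfold enc
  have e1 : 7 * (m.cl K + o) % 7 = 0 := by omega
  have e2 : 7 * (m.cl K + o) / 7 = m.cl K + o := by omega
  rw [if_pos e1, e2, hFINAL m p hm hd K o hwc]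
  unfold T bitZ
  rw [dig_tn hm K 0 ho]
  have h2 := dig_lt (q := 2) (by norm_num) (m.conf (K * (m.G * m.b))).1 o
  rw [ZMod.val_natCast_of_lt (lt_of_lt_of_le h2 hp.out.two_le), Nat.mod_eq_of_lt h2]

end Mach

/-- The parts of the simulation. -/
structure Parts : Prop where
  FLAT : FLAT_stmt
  REL : REL_stmt
  FINAL : FINAL_stmt
  LSOP : LSOP_stmt
  PARA : PARA_stmt
  PARB : PARB_stmt

variable {α : Type} [Ctx α]

theorem ls_gR {n : α → ℕ} (hn : LS n) : LS (fun a => gR (n a)) := by
  unfold gR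
  fun_prop

theorem ls_pR {n : α → ℕ} (hn : LS n) : LS (fun a => pR (n a)) := by
  unfold pR
  fun_prop

theorem ls_JT {n : α → ℕ} (hn : LS n) : LS (fun a => JT (n a)) := by
  have h := ls_gR hn
  unfold JT
  fun_prop

theorem gR_pos (n : ℕ) : 0 < gR n := Nat.succ_pos _

theorem pR_prime (n : ℕ) : (pR n).Prime := (nextPrime_spec (by positivity)).1

/-- **The simulation theorem for token machines.** The event of a machine on numbers after
`gR n * (gR n * b)` steps is computed in linear space. -/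
theorem ls_simT (P : Parts) {m : α → Mach} {x : α → ℕ} (hx : LS x)
    (hM : LSM m (fun z => CT (x z))) (hpar : ∀ z, Par (Nat.log 2 (x z)) (m z)) :
    LS (fun z => (m z).sim (pR (Nat.log 2 (x z))) (JT (Nat.log 2 (x z)))
      (gR (Nat.log 2 (x z)))) := by
  have hg : LS (fun z => gR (Nat.log 2 (x z))) := ls_gR (by fun_prop)
  have hp : LS (fun z => pR (Nat.log 2 (x z))) := ls_pR (by fun_prop)
  have hJ : LS (fun z => JT (Nat.log 2 (x z))) := ls_JT (by fun_prop)
  have hC := hM.bd
  have hσ := hM.σ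
  have ha := hM.a
  have hb := hM.b
  have hG := hM.G
  have hpp : ∀ z, 0 < pR (Nat.log 2 (x z)) := fun z => (pR_prime _).pos
  have hp1 : ∀ z, 0 < pR (Nat.log 2 (x z)) - 1 := fun z => by
    have := (pR_prime (Nat.log 2 (x z))).two_le
    omega
  obtain ⟨hop, hbase⟩ := P.LSOP hM hp hpp
  have hPar2 := fun z => P.PARB (x z) (m z) (hM.ok z) (hpar z)
  have hcnt0 : ∀ z l, 0 < (m z).cnt (pR (Nat.log 2 (x z))) l := by
    intro z l
    unfold Mach.cnt Mach.ny ifz
    split_ifs
    · positivity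
    · exact Nat.mul_pos (hp1 z) (by omega)
  have hpw : LS (fun z => 2 ^ ((m z).σ * ((m z).b + 1))) := by
    refine LS.pow_of_le (f := fun _ => 2) (C := fun z => CT (x z)) (by fun_prop) (by fun_prop) hC
      fun z => ?_
    have h := (hPar2 z).2
    have h0 : 0 < gR (Nat.log 2 (x z)) * ((m z).G + 2) :=
      Nat.mul_pos (gR_pos _) (by omega)
    refine le_trans ?_ h
    have h7 : (m z).cnt (pR (Nat.log 2 (x z))) 0 ≤
        ∏ l ∈ range (gR (Nat.log 2 (x z)) * ((m z).G + 2)),
          (m z).cnt (pR (Nat.log 2 (x z))) l :=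
      Finset.single_le_prod' (f := fun l => (m z).cnt (pR (Nat.log 2 (x z))) l)
        (fun l _ => hcnt0 z l) (mem_range.2 h0)
    refine le_trans ?_ h7
    unfold Mach.cnt Mach.ny
    rw [Nat.zero_mod, ifz_zero]
    exact Nat.le_mul_of_pos_right _ (by omega)
  have hcnt : LS (fun z : α × ℕ => (m z.1).cnt (pR (Nat.log 2 (x z.1))) z.2) := by
    unfold Mach.cnt Mach.ny
    have a1 : LS (fun z : α × ℕ => (m z.1).G) := LS.comp (f := fun z : α × ℕ => z.1) hG
      (by fun_prop)
    have a2 : LS (fun z : α × ℕ => (m z.1).b) := LS.comp (f := fun z : α × ℕ => z.1) hb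
      (by fun_prop)
    have a3 : LS (fun z : α × ℕ => 2 ^ ((m z.1).σ * ((m z.1).b + 1))) :=
      LS.comp (f := fun z : α × ℕ => z.1) hpw (by fun_prop)
    have a4 : LS (fun z : α × ℕ => pR (Nat.log 2 (x z.1))) :=
      LS.comp (f := fun z : α × ℕ => z.1) hp (by fun_prop)
    fun_prop
  have hini : LS (fun z : α × ℕ => (m z.1).initA (gR (Nat.log 2 (x z.1))) z.2) := by
    unfold Mach.initA
    have a1 : LS (fun z : α × ℕ => (m z.1).G) := LS.comp (f := fun z : α × ℕ => z.1) hG
      (by fun_prop)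
    have a2 : LS (fun z : α × ℕ => gR (Nat.log 2 (x z.1))) :=
      LS.comp (f := fun z : α × ℕ => z.1) hg (by fun_prop)
    fun_prop
  have hflat := P.FLAT (β := fun z => pR (Nat.log 2 (x z)))
    (Λ := fun z => 7 * JT (Nat.log 2 (x z)))
    (lv := fun z => gR (Nat.log 2 (x z)) * ((m z).G + 2)) (C := fun z => CT (x z))
    (cnt := fun z => (m z).cnt (pR (Nat.log 2 (x z))))
    (base := fun z => (m z).baseA (pR (Nat.log 2 (x z))))
    (op := fun z => (m z).opA (pR (Nat.log 2 (x z))))
    (s0 := fun z => (m z).initA (gR (Nat.log 2 (x z))))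
    hp (by fun_prop) (by fun_prop) hC hcnt hbase hop hini
    (fun z s x => Nat.mod_lt _ (hpp z)) (fun z l j s x => Nat.mod_lt _ (hpp z)) ?_
    (fun z => (hPar2 z).1) (fun z => (hPar2 z).2) hcnt0
  · have hCσ : ∀ z, 2 ^ (m z).σ ≤ CT (x z) := by
      intro z
      refine le_trans (Nat.pow_le_pow_right (by norm_num) ?_) (hM.hC z)
      unfold Mach.nv Mach.wc
      omega
    have hfin : LS (fun z => tab 2 (m z).σ fun o => prc (7 * JT (Nat.log 2 (x z)))
        ((m z).cnt (pR (Nat.log 2 (x z)))) ((m z).baseA (pR (Nat.log 2 (x z))))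
        ((m z).opA (pR (Nat.log 2 (x z)))) (gR (Nat.log 2 (x z)) * ((m z).G + 2))
        (trc (7 * JT (Nat.log 2 (x z))) ((m z).initA (gR (Nat.log 2 (x z)))))
        (7 * ((m z).cl (gR (Nat.log 2 (x z))) + o)) % 2) := by
      refine LS.tab (q := fun _ => 2) (m := fun z => (m z).σ) (C := fun z => CT (x z))
        (d := fun z o => prc (7 * JT (Nat.log 2 (x z)))
        ((m z).cnt (pR (Nat.log 2 (x z)))) ((m z).baseA (pR (Nat.log 2 (x z))))
        ((m z).opA (pR (Nat.log 2 (x z)))) (gR (Nat.log 2 (x z)) * ((m z).G + 2))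
        (trc (7 * JT (Nat.log 2 (x z))) ((m z).initA (gR (Nat.log 2 (x z)))))
        (7 * ((m z).cl (gR (Nat.log 2 (x z))) + o)) % 2) ?_ (LS.const 2) hσ hC
        (fun z i _ => Nat.mod_lt _ (by norm_num)) hCσ
      refine LS.mod ?_ (LS.const 2)
      have a0 : LS (fun z : α × ℕ => (m z.1).σ) := LS.comp (f := fun z : α × ℕ => z.1) hσ
        (by fun_prop)
      have a1 : LS (fun z : α × ℕ => (m z.1).G) := LS.comp (f := fun z : α × ℕ => z.1) hG
        (by fun_prop)
      have a2 : LS (fun z : α × ℕ => (m z.1).b) := LS.comp (f := fun z : α × ℕ => z.1) hb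
        (by fun_prop)
      have a3 : LS (fun z : α × ℕ => (m z.1).a) := LS.comp (f := fun z : α × ℕ => z.1) ha
        (by fun_prop)
      have a4 : LS (fun z : α × ℕ => gR (Nat.log 2 (x z.1))) :=
        LS.comp (f := fun z : α × ℕ => z.1) hg (by fun_prop)
      have a5 : LS (fun z : α × ℕ => (z.1, 7 * ((m z.1).cl (gR (Nat.log 2 (x z.1))) +
          z.2))) := by
        unfold Mach.cl Mach.wn Mach.wc
        fun_prop
      exact LS.comp (f := fun z : α × ℕ => (z.1, 7 * ((m z.1).cl (gR (Nat.log 2 (x z.1))) +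
        z.2))) hflat a5
    exact hfin
  · intro z i
    have h4 := (P.PARA (Nat.log 2 (x z)) (m z) (hM.ok z) (hpar z)).1.h4
    have h5 := (P.PARA (Nat.log 2 (x z)) (m z) (hM.ok z) (hpar z)).1.h5
    show (m z).initA _ i < _
    unfold Mach.initA
    simp only [ifz_eq01]
    split_ifs <;> omega

/-- The simulation computes the event of the machine. -/
theorem simT_eq (P : Parts) {m : Mach} (hok : m.Ok) {n : ℕ} (hpar : Par n m) :
    m.sim (pR n) (JT n) (gR n) = (m.conf (gR n * (gR n * (gR n / m.σ)))).1 := by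
  have h := P.PARA n m hok hpar
  have : Fact (pR n).Prime := ⟨pR_prime _⟩
  rw [Mach.sim_eq P.REL P.FINAL hok h.1 h.2, hpar.hG, hpar.hb]

/-- The condition `hC` of `LSM` follows from the other ones. -/
theorem nv_le (P : Parts) {m : Mach} (hok : m.Ok) {x : ℕ} (hpar : Par (Nat.log 2 x) m) :
    2 ^ m.nv m.G ≤ CT x := by
  have h := (P.PARA _ m hok hpar).1
  have h1 := h.h1
  have h5 := h.h5
  refine le_trans ?_ (P.PARB x m hok hpar).1
  calc 2 ^ m.nv m.G ≤ 2 ^ (7 * JT (Nat.log 2 x)) := by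
        refine Nat.pow_le_pow_right (by norm_num) ?_
        unfold Mach.nv
        omega
    _ ≤ pR (Nat.log 2 x) ^ (7 * JT (Nat.log 2 x)) := Nat.pow_le_pow_left (by omega) _

end Pool.Agent.Helper78.Tok
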