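import Pool.Agent.Helper78.Tok.Alg
import Pool.Agent.Helper28.Ram.Num

/-!
# Token machines: the simulation on digits

An array `a : ℕ → ℕ` of digits codes a state of the simulation: the entry `7 x + c` is, for
`c = 0, …, 6`, the register `x`, the mode, the node and the sign of the level `x`, the bit `x % σ` of
the query of the block `x / σ`, and the two accumulators of the block `x`.
-/

namespace Pool.Agent.Helper78.Tok

open Pool.Agent.Helper65.LinSpace Pool.Agent.Helper28.Ram Finset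
open Pool.Agent.Helper28.Ram.Mach (sgz)

/-- The multilinear extension of the `q`-th bit of `F` (as a function of `N` bits), modulo `p`. -/
def fhG (p N : ℕ) (F : ℕ → ℕ) (q : ℕ) (X : ℕ → ℕ) : ℕ :=
  (∑ u ∈ range (2 ^ N), dig 2 (F u) q *
    ((∏ j ∈ range N, ifz (dig 2 u j) (p + 1 - X j) (X j)) % p)) % p

/-- `1` if `lo ≤ x < lo + n`. -/
def rgn (lo n x : ℕ) : ℕ := le01 lo x * lt01 x (lo + n)

namespace Mach

variable (m : Mach)

/-- The variables of the node `i`: the registers before the interval `i`, then the cells `D`. -/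
def varN (i : ℕ) (X D : ℕ → ℕ) (j : ℕ) : ℕ := ifz (lt01 j (i * m.wn)) (D (j - i * m.wn)) (X j)

/-! ### The operations -/

/-- The query of the block `t`. -/
def qN (a : ℕ → ℕ) (t : ℕ) : ℕ := tab 2 m.σ fun o => a (7 * (t * m.σ + o) + 4)

/-- `1` if the level `l + 1` evaluates the polynomials of a node before `G`. -/
def isY (a : ℕ → ℕ) (l : ℕ) : ℕ :=
  eq01 (l % (m.G + 2)) 0 * (eq01 (a (7 * (l + 1) + 1)) 2 * lt01 (a (7 * (l + 1) + 2)) m.G)

/-- `1` if the level `l + 1` evaluates the polynomials of the node `G` in the operation `j`. -/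
def isZ (p : ℕ) (a : ℕ → ℕ) (l j : ℕ) : ℕ :=
  eq01 (l % (m.G + 2)) 0 * (eq01 (a (7 * (l + 1) + 1)) 2 * eq01 (a (7 * (l + 1) + 2)) m.G *
    lt01 j (3 * (p - 1)))

/-- `1` if the level `l + 1` evaluates a node. -/
def isN (a : ℕ → ℕ) (l : ℕ) : ℕ :=
  lt01 0 (l % (m.G + 2)) *
    (eq01 (a (7 * (l + 1) + 1)) 1 * lt01 (a (7 * (l + 1) + 2)) (l % (m.G + 2)))

/-- `1` if the level `l + 1` passes on the evaluation of polynomials. -/
def isP (a : ℕ → ℕ) (l j : ℕ) : ℕ :=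
  lt01 0 (l % (m.G + 2)) *
    (eq01 (a (7 * (l + 1) + 1)) 2 * le01 (a (7 * (l + 1) + 2)) m.G * eq01 j 0)

/-- `1` if the operation `e` of a transcript is the last one. -/
def isL (p e : ℕ) : ℕ := eq01 e (3 * (m.b * (p - 1)))

/-- The new register `x` in the operation `e` for the transcript `y` of the node `i`. -/
def yR (p k i y e : ℕ) (sg ac : ℕ) (a : ℕ → ℕ) (x : ℕ) : ℕ :=
  ifz (m.isL p e)
    (ifz (rgn (m.cl k) m.wc x) (a (7 * x))
      (ifz (e % 3) ((e / 3 % (p - 1) + 1) * a (7 * x) % p)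
        (ifz (e % 3 - 1) (a (7 * x)) (invN p (e / 3 % (p - 1) + 1) * a (7 * x) % p))))
    (ifz (rgn (i * m.wn) m.wn x) (a (7 * x))
      ((a (7 * x) + ifz sg (p - 1) 1 * (ac * dig 2 (y / 2 ^ m.σ) (x - i * m.wn))) % p))

/-- The new register `x` in the operation `e` for the node `G` and the query `u`. -/
def zR (p k u e : ℕ) (sg : ℕ) (a : ℕ → ℕ) (x : ℕ) : ℕ :=
  ifz (e % 3)
    (ifz (rgn (m.cl k) m.wc x) (a (7 * x)) ((e / 3 + 1) * a (7 * x) % p))
    (ifz (e % 3 - 1)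
      (ifz (rgn (m.cl (k + 1)) m.wc x) (a (7 * x))
        ((a (7 * x) + ifz sg 1 (p - 1) * fhG p (m.nv m.G) (m.top u) (x - m.cl (k + 1))
          (m.varN m.G (fun j => a (7 * j)) fun o => a (7 * (m.cl k + o)))) % p))
      (ifz (rgn (m.cl k) m.wc x) (a (7 * x)) (invN p (e / 3 + 1) * a (7 * x) % p)))

/-- The new register `x`. -/
def nR (p l j : ℕ) (a : ℕ → ℕ) (x : ℕ) : ℕ :=
  ifz (m.isY a l)
    (ifz (m.isZ p a l j)
      (ifz (m.isN a l * lt01 x (a (7 * (l + 1) + 2) * m.wn))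
        (a (7 * x))
        (ifz (j % (2 * m.G + 3))
          ((j / (2 * m.G + 3) + 1) * a (7 * x) % p)
          (ifz (eq01 (j % (2 * m.G + 3)) (2 * m.G + 2)) (a (7 * x))
            (invN p (j / (2 * m.G + 3) + 1) * a (7 * x) % p))))
      (m.zR p (l / (m.G + 2)) (m.qN a (l / (m.G + 2) + 1)) j (a (7 * (l + 1) + 3)) a x))
    (m.yR p (l / (m.G + 2)) (a (7 * (l + 1) + 2)) (j / m.ny p) (j % m.ny p)
      (a (7 * (l + 1) + 3)) (a (7 * (l / (m.G + 2)) + 5)) a x)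

/-- The new mode of the level `l`. -/
def cMd (p l j : ℕ) (a : ℕ → ℕ) : ℕ :=
  ifz (m.isY a l)
    (ifz (m.isZ p a l j)
      (ifz (m.isN a l)
        (ifz (m.isP a l j) 0 2)
        (ifz (j % (2 * m.G + 3)) 0
          (ifz (le01 (j % (2 * m.G + 3)) m.G)
            (ifz (eq01 (j % (2 * m.G + 3)) (m.G + 1))
              (ifz (le01 (j % (2 * m.G + 3)) (2 * m.G + 1)) 0
                (lt01 (j % (2 * m.G + 3) - (m.G + 2)) (a (7 * (l + 1) + 2))))
              2)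
            (lt01 (j % (2 * m.G + 3) - 1) (a (7 * (l + 1) + 2))))))
      (lt01 (j % 3) 2))
    (ifz (m.isL p (j % m.ny p)) (lt01 (j % m.ny p % 3) 2) 0)

/-- The new node of the level `l`. -/
def cNd (p l j : ℕ) (a : ℕ → ℕ) : ℕ :=
  ifz (m.isY a l)
    (ifz (m.isZ p a l j)
      (ifz (m.isN a l)
        (ifz (m.isP a l j) 0 (a (7 * (l + 1) + 2)))
        (ifz (j % (2 * m.G + 3)) 0
          (ifz (le01 (j % (2 * m.G + 3)) m.G)
            (ifz (eq01 (j % (2 * m.G + 3)) (m.G + 1))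
              (ifz (le01 (j % (2 * m.G + 3)) (2 * m.G + 1)) 0
                (lt01 (j % (2 * m.G + 3) - (m.G + 2)) (a (7 * (l + 1) + 2)) *
                  (j % (2 * m.G + 3) - (m.G + 2))))
              (a (7 * (l + 1) + 2)))
            (lt01 (j % (2 * m.G + 3) - 1) (a (7 * (l + 1) + 2)) * (j % (2 * m.G + 3) - 1)))))
      (lt01 (j % 3) 2 * m.G))
    (ifz (m.isL p (j % m.ny p)) (lt01 (j % m.ny p % 3) 2 * m.G) 0)

/-- The new sign of the level `l`. -/
def cSg (p l j : ℕ) (a : ℕ → ℕ) : ℕ :=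
  ifz (m.isY a l)
    (ifz (m.isZ p a l j)
      (ifz (m.isN a l)
        (ifz (m.isP a l j) 0 (a (7 * (l + 1) + 3)))
        (ifz (j % (2 * m.G + 3)) 0
          (ifz (le01 (j % (2 * m.G + 3)) m.G)
            (ifz (eq01 (j % (2 * m.G + 3)) (m.G + 1))
              (ifz (le01 (j % (2 * m.G + 3)) (2 * m.G + 1)) 0
                (lt01 (j % (2 * m.G + 3) - (m.G + 2)) (a (7 * (l + 1) + 2))))
              (a (7 * (l + 1) + 3)))
            0)))
      (eq01 (j % 3) 1))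
    (ifz (m.isL p (j % m.ny p)) (eq01 (j % m.ny p % 3) 1) 0)

/-- The new bit `x` of the queries. -/
def nQ (p l j : ℕ) (a : ℕ → ℕ) (x : ℕ) : ℕ :=
  ifz (eq01 (x / m.σ) (l / (m.G + 2))) (a (7 * x + 4))
    (ifz (m.isY a l)
      (ifz (m.isZ p a l j * eq01 (j % 3) 0) (a (7 * x + 4)) (a (7 * (x + m.σ) + 4)))
      (ifz (m.isL p (j % m.ny p))
        (ifz (j % m.ny p % 3)
          (dig 2 (m.A (dig (2 ^ m.σ) (j / m.ny p) (j % m.ny p / 3 / (p - 1)))) (x % m.σ))
          (a (7 * x + 4)))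
        (a (7 * x + 4))))

/-- The new first accumulator of the block `x`. -/
def nAc (p l j : ℕ) (a : ℕ → ℕ) (x : ℕ) : ℕ :=
  ifz (m.isY a l * eq01 x (l / (m.G + 2))) (a (7 * x + 5))
    (ifz (m.isL p (j % m.ny p))
      (ifz (j % m.ny p % 3)
        (ifz (j % m.ny p) 1 (a (7 * x + 5)))
        (ifz (j % m.ny p % 3 - 1) (a (7 * x + 5))
          (ifz (eq01 (j % m.ny p / 3 % (p - 1)) (p - 2)) (a (7 * x + 5))
            (a (7 * x + 5) * (p - a (7 * x + 6)) % p))))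
      (a (7 * x + 5)))

/-- The new second accumulator of the block `x`. -/
def nAu (p l j : ℕ) (a : ℕ → ℕ) (x : ℕ) : ℕ :=
  ifz (m.isY a l * eq01 x (l / (m.G + 2))) (a (7 * x + 6))
    (ifz (m.isL p (j % m.ny p))
      (ifz (j % m.ny p % 3)
        (ifz (j % m.ny p / 3 % (p - 1)) 0 (a (7 * x + 6)))
        (ifz (j % m.ny p % 3 - 1)
          ((a (7 * x + 6) + fhG p (m.nv (a (7 * (l + 1) + 2)))
            (m.chk (a (7 * (l + 1) + 2)) (j / m.ny p) (j % m.ny p / 3 / (p - 1))) 0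
            (m.varN (a (7 * (l + 1) + 2)) (fun i => a (7 * i))
              fun o => a (7 * (m.cl (l / (m.G + 2)) + o)))) % p)
          (a (7 * x + 6))))
      (a (7 * x + 6)))

/-- The operation `j` of the level `l + 1`. -/
def opA (p l j : ℕ) (a : ℕ → ℕ) (x : ℕ) : ℕ :=
  ifz (x % 7) (m.nR p l j a (x / 7))
    (ifz (x % 7 - 1) (ifz (eq01 (x / 7) l) (a x) (m.cMd p l j a))
      (ifz (x % 7 - 2) (ifz (eq01 (x / 7) l) (a x) (m.cNd p l j a))
        (ifz (x % 7 - 3) (ifz (eq01 (x / 7) l) (a x) (m.cSg p l j a))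
          (ifz (x % 7 - 4) (m.nQ p l j a (x / 7))
            (ifz (x % 7 - 5) (m.nAc p l j a (x / 7)) (m.nAu p l j a (x / 7))))))) % p

/-- The operation of the level `0`. -/
def baseA (p : ℕ) (a : ℕ → ℕ) (x : ℕ) : ℕ :=
  (a x + eq01 (a 1) 1 * (eq01 (x % 7) 0 * rgn (m.cl 0) m.wc (x / 7)) *
    (ifz (a 3) 1 (p - 1) * dig 2 (m.q0 + 2 ^ m.σ * m.M0 (m.qN a 0)) (x / 7 - m.cl 0))) % p

/-- The initial array. -/
def initA (K x : ℕ) : ℕ :=
  ifz (eq01 x (7 * (K * (m.G + 2)) + 1)) (ifz (eq01 x (7 * (K * (m.G + 2)) + 2)) 0 m.G) 1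

/-- The event after `K * (G * b)` steps. -/
def sim (p J K : ℕ) : ℕ :=
  tab 2 m.σ fun o => prc (7 * J) (m.cnt p) (m.baseA p) (m.opA p) (K * (m.G + 2))
    (trc (7 * J) (m.initA K)) (7 * (m.cl K + o)) % 2

variable {p : ℕ}

/-- The code of a state of the simulation. -/
def enc (s : St p) (x : ℕ) : ℕ :=
  if x % 7 = 0 then (s.R (x / 7)).val
  else if x % 7 = 1 then s.md (x / 7)
  else if x % 7 = 2 then s.nd (x / 7)
  else if x % 7 = 3 then s.sg (x / 7)
  else if x % 7 = 4 then dig 2 (s.qa (x / 7 / m.σ)) (x / 7 % m.σ)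
  else if x % 7 = 5 then (s.ac (x / 7)).val
  else (s.au (x / 7)).val

/-- The array `a` codes the state `s`. -/
def Rel (J K : ℕ) (a : ℕ → ℕ) (s : St p) : Prop :=
  (∀ x < 7 * J, a x = m.enc s x ∧ a x < p) ∧ ∀ t ≤ K, s.qa t < 2 ^ m.σ

variable (p) in
/-- The prime and the arrays are large enough. -/
structure Fit (J K : ℕ) : Prop where
  h1 : m.G * m.wn + 2 * m.wc ≤ J
  h2 : K * (m.G + 2) < J
  h3 : (K + 1) * m.σ ≤ J
  h4 : m.G < p
  h5 : 2 < p

end Mach

/-- A family of machines whose parameters and functions are computed in linear space. -/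
structure LSM {α : Type} [Ctx α] (m : α → Mach) (C : α → ℕ) : Prop where
  σ : LS (fun z => (m z).σ)
  a : LS (fun z => (m z).a)
  b : LS (fun z => (m z).b)
  G : LS (fun z => (m z).G)
  A : LS (fun z : α × ℕ => (m z.1).A z.2)
  N : LS (fun z : α × ℕ × ℕ => (m z.1).N z.2.1 z.2.2)
  W : LS (fun z : α × ℕ × ℕ => (m z.1).W z.2.1 z.2.2)
  q0 : LS (fun z => (m z).q0)
  M0 : LS (fun z : α × ℕ => (m z.1).M0 z.2)
  bd : LS C
  ok : ∀ z, (m z).Ok
  hC : ∀ z, 2 ^ (m z).nv (m z).G ≤ C z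

end Pool.Agent.Helper78.Tok
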