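import Pool.Agent.Helper78.Tok.Sim
import Pool.Agent.Helper19.Ram.FLAT
import Pool.Agent.Helper85.Tok.INNER
import Pool.Agent.Helper32.Tok.TRUTH
import Pool.Agent.Helper70.Tok.ELEV
import Pool.Agent.Helper72.Tok.NLEV
import Pool.Agent.Helper4.Tok.PROC
import Pool.Agent.Helper33.Tok.REL
import Pool.Agent.Helper33.Tok.FCAST
import Pool.Agent.Helper32.Tok.LSFN
import Pool.Agent.Helper32.Tok.LSOP
import Pool.Agent.Helper72.Tok.PARA
import Pool.Agent.Helper59.Tok.PARB

/-!
# All parts of the simulation of token machines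
-/

namespace Pool.Agent.Helper78.Tok

/-- All parts. -/
theorem parts : Parts where
  FLAT := Helper19.Ram.FLAT
  REL := Helper33.Tok.REL Helper33.Tok.FCAST
  FINAL := Helper4.Tok.FINAL (Helper4.Tok.PROC (Helper70.Tok.ELEV Helper85.Tok.INNER)
    (Helper72.Tok.NLEV Helper85.Tok.LINE Helper32.Tok.TRUTH))
  LSOP := Helper32.Tok.LSOP
  PARA := Helper72.Tok.PARA
  PARB := Helper59.Tok.PARB

end Pool.Agent.Helper78.Tok
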