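import Pool.Agent.Helper78.Tok.Num
import Pool.Agent.Helper28.Ram.Goals

/-!
# Token machines: the statements of the parts of the simulation

Every statement comes with its proof in words. The statements are close to those of
`Pool.Agent.Helper28.Ram.Goals`, whose proofs (in the folders `Ram` or `C578c8` of the helpers) can be
adapted.
-/

namespace Pool.Agent.Helper78.Tok

open Pool.Agent.Helper65.LinSpace Pool.Agent.Helper28.Ram Finset
open Pool.Agent.Helper28.Ram.Mach (sgz)

/-! ### The polynomials -/

/-- INNER. Take `τ j = if j < i * wn then 0 else Y (j - i * wn)` and `x = vars p i X D` in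
`fhat_sum` (`LinSpace/CM.lean`); then `(c + 1) * τ j + x j` is
`vars p i X (fun o => (c + 1) * Y o + D o) j`. -/
def INNER_stmt : Prop := ∀ (m : Mach) (p : ℕ) [Fact p.Prime] (N i q : ℕ) (F : ℕ → ℕ)
    (X Y D : ℕ → ZMod p), N < p - 1 →
    ∑ c ∈ range (p - 1), fhat p N F q
      (m.vars p i X fun o => ((c + 1 : ℕ) : ZMod p) * Y o + D o) = -fhat p N F q (m.vars p i X D)

/-- LINE. Use the predicate `PD d f` (`f : ZMod p → ZMod p` is the evaluation of a polynomial of
degree at most `d`) of the proof of `Helper28.Ram.LINE_stmt` (in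
`Pool.Agent.Helper67.Ram`): closed under finite sums, products (sum of the degrees). The function
`x ↦ fhat p N F q (m.vars p i (fun j => x * X j + V j) D)` is `PD N`: a sum of products of `N` factors
of degree at most `1`. So for `i < G` the function `x ↦ m.P p k i u (fun j => x * X j + V j) o` is
`PD (b * nv i)` and for `i = G` it is `PD (nv G)`; both are smaller than `p - 1` (`nv i ≤ nv G`,
`0 < b`), and `sum_eval_eq` finishes. -/
def LINE_stmt : Prop := ∀ (m : Mach) (p : ℕ) [Fact p.Prime], m.Ok → m.b * m.nv m.G < p - 1 →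
    ∀ (k i u : ℕ) (X V : ℕ → ZMod p) (o : ℕ), i ≤ m.G →
      ∑ w ∈ range (p - 1), m.P p k i u (fun j => ((w + 1 : ℕ) : ZMod p) * X j + V j) o =
        -m.P p k i u V o

/-- TRUTH. At the true values the polynomials give the true values. Let
`c t = m.conf (k * (G * b) + t)` be the configurations of the block `k`; `E t = (c t).1 < 2 ^ σ`,
and all contents are smaller than `2 ^ a`.
(1) For `i ≤ G` and a query `x` put `z = tab (2 ^ σ) (i * b) (fun t => E (t + 1)) + 2 ^ (i * wn) * m.tn k x`.
Then `z < 2 ^ nv i`, and for `j < nv i` the bit `j` of `z` is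
`m.vars p i (fun j => m.V p k (j / wn) u (j % wn)) (m.T p k x) j`: for `j < i * wn = i * b * σ` both are the
bit `j % σ` of `E (j / σ + 1)` (`j / wn < i ≤ G`; `j / wn * b + j % wn / σ = j / σ`), and for
`j = i * wn + o` both are the bit `o` of `tn k x`. So by `fhat_congr` and `fhat_bits`
`fhat p (nv i) F q (m.vars …) = bitZ p (F z) q`.
(2) `s0 i z = E 0`, `c0 i z = (c 0).2 x`, `ez i z t = E t` for `t ≤ i * b`.
(3) `i = G`: `ev G 0 z t = E t` for `t < G * b`, so `cont G 0 z x n = (c n).2 x` for `n ≤ G * b` by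
induction on `n`, and `top x z = tn (k + 1) x`. This is the claim for `i = G`.
(4) `i < G`: let `y₀ = tab (2 ^ σ) (b + 1) (fun r => E (i * b + r))`. If the digits `0, …, r` of `y` are
those of `y₀` then `ev i y z t = E t` for `t ≤ i * b + r`, so for `x = m.A (dig (2 ^ σ) y r) = m.A (E (i b + r))`
we get `cont i y z x (i * b + r) = (c (i * b + r)).2 x` and
`m.N (dig y r) (cont …) = E (i * b + r + 1)`.
(5) So for `y < 2 ^ (σ (b + 1))` the product over `r < b` of the factors (which are
`bitZ p (chk …) 0 ∈ {0, 1}`, by (1) with `x = m.A (dig (2 ^ σ) y r)`) is `1` for `y = y₀`; for `y ≠ y₀`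
take the first digit in which they differ: if it is the digit `0` the factor `r = 0` is `0`, if it is
the digit `r + 1` the factor `r` is `0`.
(6) So the sum is the term of `y₀`, and `y₀ / 2 ^ σ = tab (2 ^ σ) b (fun r => E (i * b + r + 1)) = vn k i u`. -/
def TRUTH_stmt : Prop := ∀ (m : Mach) (p : ℕ) [Fact p.Prime], m.Ok →
    ∀ (k i u o : ℕ), i ≤ m.G →
      m.P p k i u (fun j => m.V p k (j / m.wn) u (j % m.wn)) o = m.V p k i u o

/-! ### The procedures -/

/-- ELEV (may assume INNER). The evaluation of the polynomials. Put `k = l / (G + 2)`. All operations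
only set mode, node and sign of the level `l` and change `R`, `qa k`, `ac k`, `au k`, which do not
matter for `Agree (l + 1)` except `R`, since `l = k (G + 2)`. The ideal procedure of the level `l`,
called with mode `1`, node `G`, sign `g ∈ {0, 1}` and query `x = qa k`, adds `± T k x o` to the
registers `cl k + o`, `o < wc` (for `l = 0`, `k = 0` by definition; for `l > 0`:
`(l - 1) / (G + 2) = k - 1`, `(l - 1) % (G + 2) = G + 1 > G`, `lo (k - 1) G = cl k`, `ln G = wc`,
`V (k - 1) G x = T k x` by definition); called with mode `0` it does nothing. If the level `l + 1` is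
not active (`md ≠ 2` or `nd > G`) nothing happens. Let it be active.
(1) `i = nd < G`. Fix a transcript `y` and `r < b`; the `3 (p - 1)` operations with
`e / 3 / (p - 1) = r`, each followed by the ideal procedure: for `c = 1, …, p - 1` (`c = e / 3 % (p - 1) + 1`)
the content registers `C o = R (cl k + o)` become `c * C o`, then `c * C o + T k x o` with
`x = A (dig (2 ^ σ) y r)`, then `fhat (chk i y r) (vars R (c * C + T))` is added to `au k` (set to `0` at
the start), then `T k x` is subtracted, and `C` is multiplied by `c⁻¹`; so `R` is the same as before,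
and by INNER (`nv i < p - 1`) the final `au k` is `-fhat p (nv i) (chk i y r) 0 (vars i R (T k x))`, and
`ac k` is multiplied by `-au k` (`ac k` is set to `1` for `e = 0`). The other registers
which occur in `vars i` (those before `i * wn`) are not changed. After the operations for all `r` the
last operation `e = 3 b (p - 1)` subtracts `sgn * ac k * bit o of y / 2 ^ σ` from the registers
`lo k i + o`, `o < wn`; these are not among the registers before `i * wn` nor `cl k + o` (`i < G`). Sum
over the transcripts: `cnt = 2 ^ (σ (b + 1)) * ny`, `iter_mul`.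
(2) `i = G`: the operations `j < 3 (p - 1)` come in triples, `c = j / 3 + 1`: the same, but the
operation `3 (c - 1) + 1` adds `sgn * fhat p (nv G) (top x) o (vars G R (c * C + T k x))` to the registers
`lo k G + o = cl (k + 1) + o`, `o < wc`, which are disjoint from the registers `cl k + o` and from those
before `G * wn` (parity in `cl`). The other operations do nothing. By INNER the sum is
`-sgn * P k G x R`. (`3 (p - 1) ≤ cnt` as `0 < b`.) -/
def ELEV_stmt : Prop := ∀ (m : Mach) (p : ℕ) [Fact p.Prime], m.Ok →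
    m.b * m.nv m.G < p - 1 → ∀ (l : ℕ),
    l % (m.G + 2) = 0 → ∀ s : Mach.St p,
      m.Agree (l + 1) (iter (fun j s => m.ideal l (m.op l j s)) (m.cnt p l) s) (m.ideal (l + 1) s)

/-- NLEV (may assume LINE and TRUTH). The evaluation of a node. Put `k = l / (G + 2)` and
`h = l % (G + 2) > 0`; so `l > 0`, `(l - 1) / (G + 2) = k` and `(l - 1) % (G + 2) = h - 1`. If the mode is `2`
(and `nd ≤ G`) the first operation passes it on, the ideal procedure of the level `l` does the same
as that of the level `l + 1`, and the other operations do nothing. If the mode is `1` and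
`i = nd < h`: the round `w` consists of: multiply the registers before `i * wn` by `w + 1`; for `c < i` add
`V k c u` to the registers `c * wn + o`, `o < wn` (ideal procedure of the level `l` for the node
`c < h - 1`, sign `0`; `c < i ≤ G` so `lo = c * wn`, `ln = wn`); subtract `sgn * P k i u R` from the
registers `lo k i + o`, `o < ln i` (which are not before `i * wn`); for `c < i` subtract `V k c u`
again; multiply the registers before `i * wn` by `(w + 1)⁻¹`. (`V k c u` does not depend on `u` for `c < G`;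
the query is `s.qa (k + 1)` in both levels and is never changed.) `P k i u X` depends only
on `X j`, `j < i * wn`. So a round subtracts `sgn * P k i u ((w + 1) R + V)` with
`V j = V k (j / wn) u (j % wn)` and changes nothing else (`w + 1 ≠ 0` in `ZMod p` for `w < p - 1`), and all
rounds together subtract `sgn * ∑_w P k i u ((w + 1) R + V) = - sgn * P k i u V = - sgn * V k i u`. In all
other cases nothing happens. Compare the proof of `Helper28.Ram.NLEV_stmt` (in
`Pool.Agent.Helper31`), which can be adapted. -/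
def NLEV_stmt : Prop := ∀ (m : Mach) (p : ℕ) [Fact p.Prime], m.Ok →
    m.b * m.nv m.G < p - 1 → ∀ (l : ℕ), l % (m.G + 2) ≠ 0 → ∀ s : Mach.St p,
      m.Agree (l + 1) (iter (fun j s => m.ideal l (m.op l j s)) (m.cnt p l) s) (m.ideal (l + 1) s)

/-- AGREE. The operations of the level `l + 1` and the ideal procedure of the level `l` read only
those data which are the same in the two states, or overwrite them: mode, node and sign of the level
`l + 1`, `R`, `qa (l / (G + 2) + 1)`, and, only if `l = k (G + 2)`, `ac k` and `au k`. (See the proof of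
`Helper28.Ram.AGREE_stmt`.) -/
def AGREE_stmt : Prop := ∀ (m : Mach) (p : ℕ) [Fact p.Prime] (l : ℕ) (s t : Mach.St p),
    m.Agree l s t → (∀ j, m.Agree l (m.op l j s) (m.op l j t)) ∧
      m.Agree l (m.ideal l s) (m.ideal l t) ∧ m.Agree (l + 1) s t

/-- PROC (may assume ELEV, NLEV, AGREE). Induction on `l`: by induction on `n`,
`Agree l (iter (fun j s => proc l (op l j s)) n s) (iter (fun j s => ideal l (op l j s)) n s)`.
For `l = 0` `op0` and `ideal 0` are the same since `conf 0 = (q0, M0)`. -/
def PROC_stmt : Prop := ∀ (m : Mach) (p : ℕ) [Fact p.Prime], m.Ok →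
    m.b * m.nv m.G < p - 1 → ∀ (l : ℕ) (s : Mach.St p), m.Agree l (m.proc l s) (m.ideal l s)

/-- FINAL (may assume PROC). `K = 0`: `ideal 0`. `K > 0`: the level `K (G + 2) = l + 1` has
`l / (G + 2) = K - 1` and `l % (G + 2) = G + 1`. -/
def FINAL_stmt : Prop := ∀ (m : Mach) (p : ℕ) [Fact p.Prime], m.Ok →
    m.b * m.nv m.G < p - 1 → ∀ (K o : ℕ), o < m.wc →
      (m.proc (K * (m.G + 2)) (m.st0 p (K * (m.G + 2)))).R (m.cl K + o) = m.T p K 0 o

/-! ### The digits -/

/-- FCAST. The numeric extension is the extension: each factor is `X j` or `1 - X j` in `ZMod p`. -/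
def FCAST_stmt : Prop := ∀ (p N : ℕ) [Fact p.Prime] (F : ℕ → ℕ) (q : ℕ) (X : ℕ → ℕ)
    (X' : ℕ → ZMod p), (∀ j < N, X j < p ∧ ((X j : ℕ) : ZMod p) = X' j) →
      ((fhG p N F q X : ℕ) : ZMod p) = fhat p N F q X'

/-- REL (may assume FCAST). The operations on digits do the same as the operations on states. By
cases for the kind `x % 7` of the entry; for the registers and accumulators use: a number smaller than
`p` whose cast is `z` is `z.val`. All entries which are read have an index smaller than `7 J`. (See the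
proof of `Helper28.Ram.REL_stmt`.) -/
def REL_stmt : Prop := ∀ (m : Mach) (p : ℕ) [Fact p.Prime], m.Ok → ∀ (J K : ℕ), m.Fit p J K →
    (∀ l < K * (m.G + 2), ∀ (j : ℕ) (a : ℕ → ℕ) (s : Mach.St p), m.Rel J K a s →
      m.Rel J K (trc (7 * J) (m.opA p l j a)) (m.op l j s)) ∧
    ∀ (a : ℕ → ℕ) (s : Mach.St p), m.Rel J K a s →
      m.Rel J K (trc (7 * J) (m.baseA p a)) (m.op0 s)

/-- LSFN. The numeric extensions are computed in linear space. First `s0, c0, ez, ev, cont, chk, top`
(powers `2 ^ σ`, `2 ^ (i * wn)` by `LS.pow_of_le` with the bound `C`, or by `LS.dig` with the base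
`2 ^ σ`; for arbitrary `i` use that `z / 2 ^ (i * wn)` is a digit-like function: `LS.divPow` with the base
`2 ^ σ` and the exponent `i * b`, as `2 ^ (i * wn) = (2 ^ σ) ^ (i * b)`; `cont` by `LS.nrec` with the bound
`z + C`: its values are `c0 i z ≤ z` or smaller than `2 ^ a`), then the sum over
`u < 2 ^ N` by `LS.sumMod` and the products by `LS.prodMod` as in `LS.fhN` (`LinSpace/TreeLS.lean`).
The number of variables is `nv (min i G)`, so `2 ^ N ≤ C`. -/
def LSFN_stmt : Prop := ∀ {α : Type} [Ctx α] {m : α → Mach} {C p i y r u q k : α → ℕ}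
    {X : α → ℕ → ℕ}, LSM m C → LS p → (∀ z, 0 < p z) → LS i → LS y → LS r → LS u → LS q → LS k →
    LS (fun z : α × ℕ => X z.1 z.2) →
    LS (fun z => fhG (p z) ((m z).nv (min (i z) (m z).G)) ((m z).chk (i z) (y z) (r z)) 0
      ((m z).varN (i z) (X z) fun o => X z ((m z).cl (k z) + o))) ∧
    LS (fun z => fhG (p z) ((m z).nv (m z).G) ((m z).top (u z)) (q z)
      ((m z).varN (m z).G (X z) fun o => X z ((m z).cl (k z) + o)))

/-- LSOP (may assume LSFN). The operations on digits are computed in linear space. (See the proof of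
`Helper28.Ram.LSOP_stmt`. In `nAu` the number of variables is `nv nd` with `nd < G` if `isY ≠ 0`, so `nd` can be
replaced by `min nd G`.) -/
def LSOP_stmt : Prop := ∀ {α : Type} [Ctx α] {m : α → Mach} {C p : α → ℕ},
    LSM m C → LS p → (∀ z, 0 < p z) →
    LS (fun z : α × ℕ × ℕ × ℕ × ℕ => (m z.1).opA (p z.1) z.2.1 z.2.2.1
      (dig (p z.1) z.2.2.2.1) z.2.2.2.2) ∧
    LS (fun z : α × ℕ × ℕ => (m z.1).baseA (p z.1) (dig (p z.1) z.2.1) z.2.2)

/-! ### The parameters -/

/-- The number of digits of each kind. -/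
def JT (n : ℕ) : ℕ := 8 * ((gR n + 1) * (gR n + 1))

/-- The bound for all numbers. -/
def CT (x : ℕ) : ℕ := (x + 2) ^ 20000

/-- The parameters of the machine `m` are admissible for inputs of length `n`. -/
structure Par (n : ℕ) (m : Mach) : Prop where
  hσ : m.σ ≤ gR n
  hG : m.G = gR n
  hb : m.b = gR n / m.σ
  ha : m.a ≤ gR n * gR n

/-- PARA. Put `g = gR n ≥ 1`; `σ b ≤ g`, so `wn ≤ g`, `wc = σ + a ≤ g + g ^ 2`,
`G wn + 2 wc ≤ 3 g ^ 2 + 2 g`, `(g + 1) σ ≤ (g + 1) g`; `b nv G ≤ g (g ^ 2 + g + g ^ 2) < (n + 2) ^ 4 - 1` as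
`g ≤ √n + 1` (so `g ≤ n + 1` and `g ^ 2 ≤ n + 2 √n + 1`), and `pR n > (n + 2) ^ 4`
(`Pool.Agent.Helper28.Ram` and its proof of PAR1 are similar). -/
def PARA_stmt : Prop := ∀ (n : ℕ) (m : Mach), m.Ok → Par n m → m.Fit (pR n) (JT n) (gR n) ∧
    m.b * m.nv m.G < pR n - 1

/-- PARB. (Compare PAR2 of `Pool.Agent.Helper28.Ram`.) Put `n = log x`, `g = gR n`, `λ = ll n`.
`pR n ≤ 2 (n + 2)^4 ≤ 2^(4 λ + 5) ≤ 2 ^ (9 λ)` (if `λ ≥ 1`) and `(g + 1)^2 ≤ 2 (n / λ) + 8`, so
`(pR n)^(7 JT n) ≤ 2^(56 * (2 (n / λ) + 8) * 9 * λ) ≤ 2^(5040 (n + 1))`. The product has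
`g` factors `2^(σ(b+1)) (3 b (p - 1) + 1) ≤ 2^(2 g + 12 λ)` and `g (g + 1)` factors
`(p - 1) (2g+3) ≤ 2^(13 λ)`; the sum of the exponents is at most `40 λ (g + 1)^2 ≤ 40 λ (2 (n / λ) + 8)`.
Finally `two_pow_log_le : 2 ^ (k * (log x + 1)) ≤ (x + 2) ^ (2 k)`. -/
def PARB_stmt : Prop := ∀ (x : ℕ) (m : Mach), m.Ok → Par (Nat.log 2 x) m →
    pR (Nat.log 2 x) ^ (7 * JT (Nat.log 2 x)) ≤ CT x ∧
      ∏ l ∈ range (gR (Nat.log 2 x) * (m.G + 2)), m.cnt (pR (Nat.log 2 x)) l ≤ CT x

end Pool.Agent.Helper78.Tok
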