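import Pool.Agent.Helper28.Ram.Alg

/-!
# Token machines: the space-efficient simulation

A token machine is a random access machine on numbers whose state (the event) has `σ` bits and whose
memory cells have `a` bits, where `a` may be much larger than `σ`. In a step the event `q` reads the
content of the cell `A q`, changes it, and becomes the next event. Time is divided into blocks of
`G * b` steps, a block into `G` intervals of `b` steps. Only the events are stored in registers,
which are elements of `ZMod p`: the register `m < G * (σ * b)` belongs to the bit `m % σ` of the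
event number `m / σ + 1` of a block. Two more groups of `σ + a` registers are used for the event at
the start of a block together with the content of one cell at this time.
-/

namespace Pool.Agent.Helper78.Tok

open Pool.Agent.Helper65.LinSpace Pool.Agent.Helper28.Ram Finset
open Pool.Agent.Helper28.Ram.Mach (sgz)

/-- A token machine on numbers, and the parameters of the simulation. -/
structure Mach where
  σ : ℕ
  a : ℕ
  b : ℕ
  G : ℕ
  A : ℕ → ℕ
  N : ℕ → ℕ → ℕ
  W : ℕ → ℕ → ℕ
  q0 : ℕ
  M0 : ℕ → ℕ

/-- Events have `σ` bits, contents have `a` bits. -/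
structure Mach.Ok (m : Mach) : Prop where
  hσ : 0 < m.σ
  hb : 0 < m.b
  hA : ∀ q, m.A q < 2 ^ m.σ
  hN : ∀ q v, m.N q v < 2 ^ m.σ
  hW : ∀ q v, m.W q v < 2 ^ m.a
  hq0 : m.q0 < 2 ^ m.σ
  hM0 : ∀ x, m.M0 x < 2 ^ m.a

namespace Mach

variable (m : Mach)

/-- The configuration of the machine at the time `t`. -/
def conf (t : ℕ) : ℕ × (ℕ → ℕ) := cf m.A m.N m.W m.q0 m.M0 t

/-- The number of registers of an interval. -/
def wn : ℕ := m.σ * m.b

/-- The number of registers of a content. -/
def wc : ℕ := m.σ + m.a

/-- The number of variables of the node `i`: the registers of the intervals before `i`, and the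
registers of a content. -/
def nv (i : ℕ) : ℕ := i * m.wn + m.wc

/-! ### Boolean functions

A number `z` codes the events `1, …, i * b` of the block (in base `2 ^ σ`), then the event at the
start of the block, then the content of a cell at the start of the block. A transcript `y` of the
interval `i` consists of the `b + 1` events `i * b, …, i * b + b` of the block. -/

/-- The event at the start of the block. -/
def s0 (i z : ℕ) : ℕ := z / 2 ^ (i * m.wn) % 2 ^ m.σ

/-- The content at the start of the block. -/
def c0 (i z : ℕ) : ℕ := z / 2 ^ (i * m.wn) / 2 ^ m.σ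

/-- The event number `t` of the block, as coded by `z`. -/
def ez (i z t : ℕ) : ℕ := ifz t (m.s0 i z) (dig (2 ^ m.σ) z (t - 1))

/-- The event number `t` of the block, as coded by `z` (before the interval `i`) and the transcript
`y` (from the start of the interval `i`). -/
def ev (i y z t : ℕ) : ℕ :=
  ifz (lt01 t (i * m.b)) (dig (2 ^ m.σ) y (t - i * m.b)) (m.ez i z t)

/-- The content of the cell `x` after `n` steps of the block. -/
def cont (i y z x n : ℕ) : ℕ :=
  nrec (m.c0 i z) (fun t c => ifz (eq01 (m.A (m.ev i y z t)) x) c (m.W (m.ev i y z t) c)) n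

/-- `1` if the step `r` of the transcript `y` is right: if the content coded by `z` is the content at
the start of the block of the cell which is read in this step. For `r = 0` the first event of the
transcript is compared, too. -/
def chk (i y r z : ℕ) : ℕ :=
  ifz r (eq01 (dig (2 ^ m.σ) y 0) (m.ez i z (i * m.b))) 1 *
    eq01 (dig (2 ^ m.σ) y (r + 1))
      (m.N (dig (2 ^ m.σ) y r) (m.cont i y z (m.A (dig (2 ^ m.σ) y r)) (i * m.b + r)))

/-- The event at the end of the block, and the content of the cell `x` at this time. -/
def top (x z : ℕ) : ℕ := m.ez m.G z (m.G * m.b) + 2 ^ m.σ * m.cont m.G 0 z x (m.G * m.b)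

/-! ### Polynomials -/

section

variable (p : ℕ)

/-- The variables of the node `i`: the registers before the interval `i`, then the cells `D`. -/
def vars (i : ℕ) (X D : ℕ → ZMod p) (j : ℕ) : ZMod p :=
  if j < i * m.wn then X j else D (j - i * m.wn)

/-- The event at the start of the block `k` and the content of the cell `x` at this time. -/
def tn (k x : ℕ) : ℕ :=
  (m.conf (k * (m.G * m.b))).1 + 2 ^ m.σ * (m.conf (k * (m.G * m.b))).2 x

/-- The bits of `tn`. -/
def T (k x o : ℕ) : ZMod p := bitZ p (m.tn k x) o

/-- The polynomials of the node `i` of the block `k` for the query `x`. -/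
def P (k i x : ℕ) (X : ℕ → ZMod p) (o : ℕ) : ZMod p :=
  if i < m.G then
    ∑ y ∈ range (2 ^ (m.σ * (m.b + 1))),
      (∏ r ∈ range m.b, fhat p (m.nv i) (m.chk i y r) 0
        (m.vars p i X (m.T p k (m.A (dig (2 ^ m.σ) y r))))) * bitZ p (y / 2 ^ m.σ) o
  else fhat p (m.nv m.G) (m.top x) o (m.vars p m.G X (m.T p k x))

/-- The value of the node `i` of the block `k` for the query `x`, as a number. -/
def vn (k i x : ℕ) : ℕ :=
  if i < m.G then
    tab (2 ^ m.σ) m.b fun r => (m.conf (k * (m.G * m.b) + i * m.b + r + 1)).1
  else m.tn (k + 1) x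

/-- The bits of the value of the node `i`. -/
def V (k i x o : ℕ) : ZMod p := bitZ p (m.vn k i x) o

/-! ### The procedures -/

/-- The first register of the content at the start of the block `k`. -/
def cl (k : ℕ) : ℕ := m.G * m.wn + k % 2 * m.wc

/-- The first register of the output of the node `i` of the block `k`. -/
def lo (k i : ℕ) : ℕ := if i < m.G then i * m.wn else m.cl (k + 1)

/-- The number of registers of the output of the node `i`. -/
def ln (i : ℕ) : ℕ := if i < m.G then m.wn else m.wc

/-- The states of the simulation: registers; mode, node and sign of each level; query and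
accumulators of each block. -/
structure St where
  R : ℕ → ZMod p
  md : ℕ → ℕ
  nd : ℕ → ℕ
  sg : ℕ → ℕ
  qa : ℕ → ℕ
  ac : ℕ → ZMod p
  au : ℕ → ZMod p

variable {p} in
/-- Set mode, node and sign of the level `l`. -/
def St.call (s : St p) (l c i g : ℕ) : St p :=
  { s with
    md := Function.update s.md l c
    nd := Function.update s.nd l i
    sg := Function.update s.sg l g }

variable {p} in
/-- Add `c` to the `n` registers from `l` on. -/
def addR (l n : ℕ) (c : ℕ → ZMod p) (R : ℕ → ZMod p) : ℕ → ZMod p :=
  fun j => if l ≤ j ∧ j < l + n then R j + c (j - l) else R j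

variable {p} in
/-- Multiply the `n` registers from `l` on by `c`. -/
def scaR (l n : ℕ) (c : ZMod p) (R : ℕ → ZMod p) : ℕ → ZMod p :=
  fun j => if l ≤ j ∧ j < l + n then c * R j else R j

variable {p}

/-- The level `0`: the query at the start of the computation. -/
def op0 (s : St p) : St p :=
  if s.md 0 = 1 then
    { s with R := addR (m.cl 0) m.wc (fun o => sgz p (s.sg 0) *
        bitZ p (m.q0 + 2 ^ m.σ * m.M0 (s.qa 0)) o) s.R }
  else s

/-- The evaluation of the polynomials of the node `i < G`: the operation number `e` for the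
transcript `y` in the level `l + 1`, which belongs to the block `k`. The operations come in triples:
load the content, add the value of the polynomial, remove the content. The last operation changes
the registers of the node. -/
def opY (l k y e : ℕ) (s : St p) : St p :=
  if e = 3 * (m.b * (p - 1)) then
    ({ s with
        R := addR (m.lo k (s.nd (l + 1))) (m.ln (s.nd (l + 1)))
          (fun o => -(sgz p (s.sg (l + 1)) * (s.ac k * bitZ p (y / 2 ^ m.σ) o))) s.R } :
      St p).call l 0 0 0
  else if e % 3 = 0 then
    ({ s with
        R := scaR (m.cl k) m.wc ((e / 3 % (p - 1) + 1 : ℕ) : ZMod p) s.R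
        ac := Function.update s.ac k (if e = 0 then 1 else s.ac k)
        au := Function.update s.au k (if e / 3 % (p - 1) = 0 then 0 else s.au k)
        qa := Function.update s.qa k (m.A (dig (2 ^ m.σ) y (e / 3 / (p - 1)))) } :
      St p).call l 1 m.G 0
  else if e % 3 = 1 then
    ({ s with
        au := Function.update s.au k (s.au k + fhat p (m.nv (s.nd (l + 1)))
          (m.chk (s.nd (l + 1)) y (e / 3 / (p - 1))) 0
          (m.vars p (s.nd (l + 1)) s.R fun o => s.R (m.cl k + o))) } :
      St p).call l 1 m.G 1
  else
    ({ s with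
        R := scaR (m.cl k) m.wc ((e / 3 % (p - 1) + 1 : ℕ) : ZMod p)⁻¹ s.R
        ac := Function.update s.ac k
          (if e / 3 % (p - 1) = p - 2 then s.ac k * -s.au k else s.ac k) } :
      St p).call l 0 0 0

/-- The evaluation of the polynomials of the node `G`: the operation number `e` in the level
`l + 1`, which belongs to the block `k`. -/
def opZ (l k e : ℕ) (s : St p) : St p :=
  if e % 3 = 0 then
    ({ s with
        R := scaR (m.cl k) m.wc ((e / 3 + 1 : ℕ) : ZMod p) s.R
        qa := Function.update s.qa k (s.qa (k + 1)) } : St p).call l 1 m.G 0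
  else if e % 3 = 1 then
    ({ s with
        R := addR (m.lo k m.G) (m.ln m.G) (fun o => sgz p (s.sg (l + 1)) *
          fhat p (m.nv m.G) (m.top (s.qa (k + 1))) o
            (m.vars p m.G s.R fun o => s.R (m.cl k + o))) s.R } :
      St p).call l 1 m.G 1
  else
    ({ s with R := scaR (m.cl k) m.wc ((e / 3 + 1 : ℕ) : ZMod p)⁻¹ s.R } : St p).call l 0 0 0

variable (p) in
/-- The number of operations for one transcript. -/
def ny : ℕ := 3 * (m.b * (p - 1)) + 1

/-- The evaluation of the polynomials: the operation `j` of the level `l + 1`, which belongs to the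
block `k`. -/
def opE (l k j : ℕ) (s : St p) : St p :=
  if s.md (l + 1) = 2 ∧ s.nd (l + 1) < m.G then m.opY l k (j / m.ny p) (j % m.ny p) s
  else if s.md (l + 1) = 2 ∧ s.nd (l + 1) = m.G ∧ j < 3 * (p - 1) then m.opZ l k j s
  else s.call l 0 0 0

/-- The evaluation of the nodes before `h`: the operation `j` of the level `l + 1`. -/
def opN (l h j : ℕ) (s : St p) : St p :=
  if s.md (l + 1) = 1 ∧ s.nd (l + 1) < h then
    if j % (2 * m.G + 3) = 0 then
      ({ s with R := scaR 0 (s.nd (l + 1) * m.wn) ((j / (2 * m.G + 3) + 1 : ℕ) : ZMod p) s.R } :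
        St p).call l 0 0 0
    else if j % (2 * m.G + 3) ≤ m.G then
      if j % (2 * m.G + 3) - 1 < s.nd (l + 1) then s.call l 1 (j % (2 * m.G + 3) - 1) 0
      else s.call l 0 0 0
    else if j % (2 * m.G + 3) = m.G + 1 then s.call l 2 (s.nd (l + 1)) (s.sg (l + 1))
    else if j % (2 * m.G + 3) ≤ 2 * m.G + 1 then
      if j % (2 * m.G + 3) - (m.G + 2) < s.nd (l + 1) then
        s.call l 1 (j % (2 * m.G + 3) - (m.G + 2)) 1
      else s.call l 0 0 0
    else
      ({ s with R := scaR 0 (s.nd (l + 1) * m.wn) ((j / (2 * m.G + 3) + 1 : ℕ) : ZMod p)⁻¹ s.R } :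
        St p).call l 0 0 0
  else if s.md (l + 1) = 2 ∧ s.nd (l + 1) ≤ m.G ∧ j = 0 then
    s.call l 2 (s.nd (l + 1)) (s.sg (l + 1))
  else s.call l 0 0 0

/-- The operation `j` of the level `l + 1`. -/
def op (l j : ℕ) (s : St p) : St p :=
  if l % (m.G + 2) = 0 then m.opE l (l / (m.G + 2)) j s else m.opN l (l % (m.G + 2)) j s

variable (p) in
/-- The number of operations of the level `l + 1`. -/
def cnt (l : ℕ) : ℕ :=
  ifz (l % (m.G + 2)) (2 ^ (m.σ * (m.b + 1)) * m.ny p) ((p - 1) * (2 * m.G + 3))

/-- The procedure of the level `l`. -/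
def proc : ℕ → St p → St p
  | 0, s => m.op0 s
  | l + 1, s => iter (fun j s => proc l (m.op l j s)) (m.cnt p l) s

variable (p) in
/-- The state with an active call of the node `G` in the level `l`, and zeros elsewhere. -/
def st0 (l : ℕ) : St p :=
  ({ R := fun _ => 0, md := fun _ => 0, nd := fun _ => 0, sg := fun _ => 0, qa := fun _ => 0,
     ac := fun _ => 0, au := fun _ => 0 } : St p).call l 1 m.G 0

/-- What the procedure of the level `l` does. -/
def ideal : ℕ → St p → St p
  | 0, s =>
    if s.md 0 = 1 then
      { s with R := addR (m.cl 0) m.wc (fun o => sgz p (s.sg 0) * m.T p 0 (s.qa 0) o) s.R }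
    else s
  | l + 1, s =>
    if s.md (l + 1) = 2 ∧ s.nd (l + 1) ≤ m.G then
      { s with
        R := addR (m.lo (l / (m.G + 2)) (s.nd (l + 1))) (m.ln (s.nd (l + 1)))
          (fun o => -(sgz p (s.sg (l + 1)) *
            m.P p (l / (m.G + 2)) (s.nd (l + 1)) (s.qa (l / (m.G + 2) + 1)) s.R o)) s.R }
    else if s.md (l + 1) = 1 ∧ s.nd (l + 1) < l % (m.G + 2) then
      { s with
        R := addR (m.lo (l / (m.G + 2)) (s.nd (l + 1))) (m.ln (s.nd (l + 1)))
          (fun o => sgz p (s.sg (l + 1)) *
            m.V p (l / (m.G + 2)) (s.nd (l + 1)) (s.qa (l / (m.G + 2) + 1)) o) s.R }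
    else s

/-- The states agree in all which the procedure of the level `l` does not use as its work space. -/
def Agree (l : ℕ) (s t : St p) : Prop :=
  s.R = t.R ∧ (∀ k, l ≤ k → s.md k = t.md k ∧ s.nd k = t.nd k ∧ s.sg k = t.sg k) ∧
    ∀ k, l ≤ k * (m.G + 2) → s.qa k = t.qa k ∧ s.ac k = t.ac k ∧ s.au k = t.au k

end

end Mach

end Pool.Agent.Helper78.Tok
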